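import Pool.Agent.Helper62.RT.Tr

set_option autoImplicit false

/-!
# A torsion free group of rank one with square roots
-/

namespace Pool.Agent.Helper62.RT

open Pool.Agent.E8helper9.RM
open scoped TensorProduct

variable {n : ℕ}

lemma add_finGen {Γ : Subgroup (Pt n)} (h : FinGenModTorsion Γ) : RE.FGModTorsion (addG Γ) := by
  obtain ⟨F, hF, hFΓ, h⟩ := h
  refine ⟨(fun x : Pt n => fun i => Additive.ofMul (x i)) '' F, hF.image _, ?_, ?_⟩
  · rintro _ ⟨x, hx, rfl⟩
    exact hFΓ hx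
  · intro x hx
    obtain ⟨y, hy, m, hm, hxy⟩ := h (fun i => (x i).toMul) hx
    refine ⟨fun i => Additive.ofMul (y i), ?_, m, hm, ?_⟩
    · clear hxy
      induction hy using Subgroup.closure_induction with
      | mem z hz => exact AddSubgroup.subset_closure ⟨z, hz, rfl⟩
      | one => exact zero_mem _
      | mul z w _ _ hz hw => exact add_mem hz hw
      | inv z _ hz => exact neg_mem hz
    · funext i
      have := congrFun hxy i
      simp only [Pi.pow_apply, Pi.mul_apply, Pi.inv_apply, Pi.one_apply] at this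
      apply Additive.toMul.injective
      simp only [Pi.smul_apply, Pi.sub_apply, Pi.zero_apply]
      rw [toMul_nsmul, toMul_sub, toMul_zero, toMul_ofMul, div_eq_mul_inv]
      exact this

/-- a compatible system of roots of `2` -/
lemma exists_roots : ∃ r : ℕ → Qbˣ, r 0 = Units.mk0 (2 : Qb) two_ne_zero ∧
    ∀ k, r (k + 1) ^ 2 = r k := by
  choose f hf using fun x : Qbˣ => exists_root x (m := 2) two_pos
  exact ⟨fun k => Nat.rec (Units.mk0 (2 : Qb) two_ne_zero) (fun _ x => f x) k, rfl,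
    fun k => hf _⟩

lemma exists_torsionfree (hn : 1 ≤ n) :
    ∃ Γ : Subgroup (Pt n), rk (Additive Γ) = 1 ∧
      (∀ x ∈ Γ, ∀ m : ℕ, 0 < m → x ^ m = 1 → x = 1) ∧
      (∀ x ∈ Γ, ∃ y ∈ Γ, y ^ 2 = x) ∧ (∃ x ∈ Γ, ∀ m : ℕ, 0 < m → x ^ m ≠ 1) := by
  obtain ⟨r, hr0, hr⟩ := exists_roots
  set i₀ : Fin n := ⟨0, hn⟩ with hi₀
  have hrj : ∀ k j, r (k + j) ^ (2 ^ j) = r k := by
    intro k j
    induction j with
    | zero => simp
    | succ j ih =>
      rw [← add_assoc, pow_succ' 2 j, pow_mul, hr, ih]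
  have hr00 : ∀ k, r k ^ (2 ^ k) = Units.mk0 (2 : Qb) two_ne_zero := by
    intro k
    have := hrj 0 k
    rwa [zero_add, hr0] at this
  have hrz : ∀ k (a : ℤ), r k ^ a = 1 → a = 0 := by
    intro k a h
    have h1 : (Units.mk0 (2 : Qb) two_ne_zero) ^ a = 1 := by
      rw [← hr00 k, ← zpow_natCast, ← zpow_mul, mul_comm, zpow_mul, h, one_zpow]
    exact two_zpow h1
  set g : ℕ → Pt n := fun k => Pi.mulSingle i₀ (r k) with hg
  have hgz : ∀ k (a : ℤ), g k ^ a = Pi.mulSingle i₀ (r k ^ a) := by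
    intro k a
    rw [hg]
    exact (Pi.mulSingle_zpow (f := fun _ : Fin n => Qbˣ) i₀ (r k) a).symm
  have hgk : ∀ k, g (k + 1) ^ 2 = g k := by
    intro k
    have := hgz (k + 1) 2
    rw [zpow_ofNat, zpow_ofNat, hr] at this
    exact this
  set Γ : Subgroup (Pt n) := Subgroup.closure (Set.range g) with hΓ
  have hform : ∀ x ∈ Γ, ∃ k, ∃ a : ℤ, x = g k ^ a := by
    intro x hx
    induction hx using Subgroup.closure_induction with
    | mem z hz =>
      obtain ⟨k, rfl⟩ := hz
      exact ⟨k, 1, (zpow_one _).symm⟩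
    | one => exact ⟨0, 0, (zpow_zero _).symm⟩
    | mul z w _ _ hz hw =>
      obtain ⟨k, a, rfl⟩ := hz
      obtain ⟨l, b, rfl⟩ := hw
      refine ⟨k + l, a * 2 ^ l + b * 2 ^ k, ?_⟩
      rw [hgz, hgz, hgz, ← Pi.mulSingle_mul]
      congr 1
      rw [zpow_add]
      congr 1
      · conv_lhs => rw [← hrj k l]
        rw [← zpow_natCast, ← zpow_mul, mul_comm]
        push_cast
        rfl
      · conv_lhs => rw [← hrj l k]
        rw [← zpow_natCast, ← zpow_mul, mul_comm, add_comm l k]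
        push_cast
        rfl
    | inv z _ hz =>
      obtain ⟨k, a, rfl⟩ := hz
      exact ⟨k, -a, (zpow_neg _ _).symm⟩
  have hgmem : ∀ k, g k ∈ Γ := fun k => Subgroup.subset_closure ⟨k, rfl⟩
  have htf : ∀ k (a : ℤ), g k ^ a = 1 → a = 0 := by
    intro k a h
    rw [hgz] at h
    have := congrFun h i₀
    rw [Pi.mulSingle_eq_same, Pi.one_apply] at this
    exact hrz k a this
  refine ⟨Γ, ?_, ?_, ?_, ?_⟩
  · refine finrank_eq_one (Additive.ofMul (⟨g 0, hgmem 0⟩ : Γ)) ?_ ?_
    · intro k hk h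
      have h1 : g 0 ^ k = 1 := congrArg
        (fun z : Additive Γ => ((Additive.toMul z : Γ) : Pt n)) h
      rw [← zpow_natCast] at h1
      have := htf 0 _ h1
      omega
    · intro x
      obtain ⟨k, a, hx⟩ := hform _ (Additive.toMul x).2
      refine ⟨2 ^ k, by positivity, a, ?_⟩
      apply Additive.toMul.injective
      apply Subtype.ext
      show ((Additive.toMul x : Γ) : Pt n) ^ (2 ^ k) = (g 0) ^ a
      rw [hx, hgz, hgz, ← zpow_natCast, ← Pi.mulSingle_zpow]
      congr 1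
      rw [← zpow_mul, mul_comm, zpow_mul, zpow_natCast, hr00, hr0]
  · intro x hx m hm hxm
    obtain ⟨k, a, rfl⟩ := hform x hx
    rw [← zpow_natCast, ← zpow_mul] at hxm
    have h1 := htf k _ hxm
    have h2 : a = 0 := by
      rcases mul_eq_zero.1 h1 with h | h
      · exact h
      · exfalso
        have : m = 0 := by exact_mod_cast h
        omega
    rw [h2, zpow_zero]
  · intro x hx
    obtain ⟨k, a, rfl⟩ := hform x hx
    refine ⟨g (k + 1) ^ a, zpow_mem (hgmem _) _, ?_⟩
    rw [← zpow_natCast, ← zpow_mul, mul_comm, zpow_mul, zpow_natCast, hgk]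
  · refine ⟨g 0, hgmem 0, fun m hm h => ?_⟩
    rw [← zpow_natCast] at h
    have := htf 0 _ h
    omega

/-- such a group is not finitely generated modulo torsion -/
lemma not_finGen (hSAT : RE.S_SAT) {Γ : Subgroup (Pt n)} (h2 : ∀ x ∈ Γ, ∃ y ∈ Γ, y ^ 2 = x)
    (hx : ∃ x ∈ Γ, ∀ m : ℕ, 0 < m → x ^ m ≠ 1) : ¬ FinGenModTorsion Γ := by
  intro h
  refine hSAT (Fin n → Additive Qbˣ) (addG Γ) ?_ ?_ (add_finGen h)
  · intro x hx
    obtain ⟨y, hy, hyx⟩ := h2 (fun i => (x i).toMul) hx
    refine ⟨fun i => Additive.ofMul (y i), hy, ?_⟩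
    funext i
    apply Additive.toMul.injective
    have := congrFun hyx i
    simp only [Pi.pow_apply] at this
    simp only [Pi.smul_apply, toMul_nsmul, toMul_ofMul]
    exact this
  · obtain ⟨x, hx, hxm⟩ := hx
    refine ⟨fun i => Additive.ofMul (x i), hx, fun m hm h => hxm m hm ?_⟩
    funext i
    have := congrArg Additive.toMul (congrFun h i)
    simp only [Pi.smul_apply, Pi.zero_apply, toMul_nsmul, toMul_ofMul, toMul_zero] at this
    exact this

end Pool.Agent.Helper62.RT
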