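import Pool.Graph.R_pool_sql_team_seeded_b677cdb8.E8helper9.RM.Exist

set_option autoImplicit false

/-!
# Subgroups of tori, saturated or not, which are not Lehmer groups
-/

namespace Pool.Agent.Helper62.RT

open Pool.Agent.E8helper9.RM
open Pool.Agent.H58P (ht)
open Pool.Agent.H58R (ht_nonneg ht_mul_le ht_one ht_zpow ht_prod_le)
open Pool.Agent.H58B (ht_pow)

variable {n : ℕ}

/-- transversality of the points used below -/
lemma transverse_small {Γ : Subgroup (Pt n)} (i₀ : Fin n)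
    (v : Fin n → ℤ) (hv : v i₀ ≠ 0) (F : Set Qbˣ)
    (hF : ∀ y ∈ coordGroup Γ, ∃ m : ℕ, 0 < m ∧ y ^ m ∈ Subgroup.closure F)
    (u : Fin n → Qbˣ)
    (hu : ∀ a : Fin n → ℤ, ∀ m : ℕ, 0 < m → (∏ i, u i ^ a i) ^ m ∈ Subgroup.closure F → a = 0)
    (D : ℕ) (r : Fin n → Qbˣ) (hr : ∀ j, r j ^ D = u j)
    (y : Qbˣ) (hyΓ : y ∈ coordGroup Γ) (hy : ∀ m : ℕ, 0 < m → ∀ γ ∈ Γ, chi v γ ≠ y ^ m)
    (z : Qbˣ) (hz : z ^ v i₀ = y) :
    IsTransverse Γ {bpt i₀ v r * Pi.mulSingle i₀ z} := by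
  apply isTransverse_of_chi
  rintro w hw γ ⟨m₀, hm₀, hγ⟩ heq
  rw [map_mul, chi_mulSingle] at heq
  have hm₀' : (m₀ : ℤ) ≠ 0 := by exact_mod_cast hm₀.ne'
  -- the exponents vanish
  have h1 : ((chi w (bpt i₀ v r)) ^ v i₀) ^ m₀ ∈ coordGroup Γ := by
    have e : ((chi w (bpt i₀ v r)) ^ v i₀) ^ m₀ =
        (chi w (γ ^ m₀)) ^ v i₀ * ((y ^ w i₀) ^ m₀)⁻¹ := by
      have e0 : (chi w (bpt i₀ v r)) ^ v i₀ = (chi w γ) ^ v i₀ * (y ^ w i₀)⁻¹ := by
        rw [← heq, mul_zpow, ← zpow_mul z, mul_comm (w i₀), zpow_mul z, hz, mul_inv_cancel_right]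
      rw [e0, mul_pow, inv_pow, map_pow]
      congr 1
      rw [← zpow_natCast, ← zpow_mul, mul_comm, zpow_mul, zpow_natCast]
    rw [e]
    exact mul_mem (zpow_mem (chi_mem_coordGroup w fun i => coord_mem hγ i) _)
      (inv_mem (pow_mem (zpow_mem hyΓ _) _))
  have h2 : (chi w (bpt i₀ v r)) ^ D = ∏ j, u j ^ (w j * v i₀ - w i₀ * v j) := by
    rw [chi_bpt, ← Finset.prod_pow]
    refine Finset.prod_congr rfl fun j _ => ?_
    rw [← hr j, ← zpow_natCast, ← zpow_natCast, ← zpow_mul, ← zpow_mul, mul_comm]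
  have h3 : ∏ j, u j ^ ((w j * v i₀ - w i₀ * v j) * (v i₀ * m₀)) ∈ coordGroup Γ := by
    have e : ∏ j, u j ^ ((w j * v i₀ - w i₀ * v j) * (v i₀ * m₀)) =
        (((chi w (bpt i₀ v r)) ^ v i₀) ^ m₀) ^ D := by
      have e1 : (((chi w (bpt i₀ v r)) ^ v i₀) ^ m₀) ^ D =
          ((chi w (bpt i₀ v r)) ^ D) ^ (v i₀ * m₀) := by
        rw [← zpow_natCast, ← zpow_natCast, ← zpow_natCast, ← zpow_mul, ← zpow_mul, ← zpow_mul]
        congr 1
        ring
      rw [e1, h2, ← Finset.prod_zpow]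
      refine Finset.prod_congr rfl fun j _ => ?_
      rw [zpow_mul]
    rw [e]
    exact pow_mem h1 D
  obtain ⟨m, hm, hmem⟩ := hF _ h3
  have h4 := hu _ m hm hmem
  have h5 : ∀ j, w j * v i₀ = w i₀ * v j := by
    intro j
    have := congrFun h4 j
    simp only [Pi.zero_apply] at this
    rcases mul_eq_zero.1 this with h | h
    · linarith
    · exact absurd h (mul_ne_zero hv hm₀')
  have hw0 : w i₀ ≠ 0 := by
    intro h
    apply hw
    funext j
    have := h5 j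
    rw [h, zero_mul] at this
    rcases mul_eq_zero.1 this with h | h
    · exact h
    · exact absurd h hv
  have h6 : chi w (bpt i₀ v r) = 1 := by
    rw [chi_bpt]
    refine Finset.prod_eq_one fun j _ => ?_
    rw [h5 j, sub_self, zpow_zero]
  rw [h6, one_mul] at heq
  -- a power of `y` would be in the image
  have h7 : (chi w γ) ^ v i₀ = (chi v γ) ^ w i₀ := by
    rw [chi_apply, chi_apply, ← Finset.prod_zpow, ← Finset.prod_zpow]
    refine Finset.prod_congr rfl fun j _ => ?_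
    rw [← zpow_mul, ← zpow_mul, h5 j, mul_comm]
  have h8 : y ^ w i₀ = (chi v γ) ^ w i₀ := by
    rw [← h7, ← heq, ← zpow_mul, mul_comm, zpow_mul, hz]
  have h9 : chi v ((γ ^ m₀) ^ (w i₀).natAbs) = y ^ (m₀ * (w i₀).natAbs) := by
    have h10 : y ^ (w i₀).natAbs = (chi v γ) ^ (w i₀).natAbs := by
      rcases Int.natAbs_eq (w i₀) with h | h
      · rw [h, zpow_natCast, zpow_natCast] at h8
        exact h8
      · rw [h, zpow_neg, zpow_neg, zpow_natCast, zpow_natCast, inv_inj] at h8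
        exact h8
    rw [map_pow, map_pow, ← pow_mul, mul_comm m₀, pow_mul, pow_mul, h10]
  exact hy _ (Nat.mul_pos hm₀ (Int.natAbs_pos.2 hw0)) _ (pow_mem hγ _) h9

/-- **The main construction.** If the coordinate group contains numbers of arbitrarily small height no
power of which is in the image of `Γ` under a nontrivial character, then `Γ` is not a Lehmer group. -/
theorem not_lehmer_of_small (hn : 1 ≤ n) {K : IntermediateField ℚ Qb} {Γ : Subgroup (Pt n)}
    (hfin : FinRk (Additive Γ)) (v : Fin n → ℤ) (hv : v ≠ 0)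
    (hsm : ∀ ε : ℝ, 0 < ε → ∃ y ∈ coordGroup Γ, ht (y : Qb) < ε ∧
      ∀ m : ℕ, 0 < m → ∀ γ ∈ Γ, chi v γ ≠ y ^ m) : ¬ IsLehmerGroup K Γ := by
  obtain ⟨i₀, hi₀⟩ : ∃ i, v i ≠ 0 := by
    by_contra hcon
    push Not at hcon
    exact hv (funext hcon)
  obtain ⟨F, hFfin, hF⟩ := exists_finite_coordGroup Γ hfin
  obtain ⟨t, u, htu, hu⟩ := exists_independent_primes F hFfin n
  set C₁ : ℝ := ∑ i, ∑ j, |(expo i₀ v i j : ℝ)| * ht (u j : Qb) with hC₁
  have hC₁0 : 0 ≤ C₁ := Finset.sum_nonneg fun i _ => Finset.sum_nonneg fun j _ =>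
    mul_nonneg (abs_nonneg _) (ht_nonneg _)
  set V : ℕ := (v i₀).natAbs with hV
  have hVpos : 0 < V := Int.natAbs_pos.2 hi₀
  have hVR : (0 : ℝ) < V := by exact_mod_cast hVpos
  apply not_isLehmerGroup hn
  intro c hc
  obtain ⟨k', hk'⟩ := exists_nat_gt (2 * V * C₁ / c)
  set k := k' + 1 with hk
  have hkpos : 0 < k := Nat.succ_pos _
  have hkR : (0 : ℝ) < k := by exact_mod_cast hkpos
  have hkgt : 2 * V * C₁ / c < k := hk'.trans (by rw [hk]; push_cast; linarith)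
  set D := k ^ n with hD
  have hDpos : 0 < D := Nat.pow_pos hkpos
  choose r hr using fun j => exists_root (u j) hDpos
  have hkp : (0 : ℝ) < (k : ℝ) ^ (n - 1) := by positivity
  obtain ⟨y, hyΓ, hyht, hyv⟩ := hsm (c / (2 * ((k : ℝ) ^ (n - 1) * V))) (by positivity)
  obtain ⟨z, hz⟩ := exists_zroot y hi₀
  obtain ⟨hfinZ, hcard⟩ := finite_card i₀ v hi₀ D hDpos (fun i => u i ^ v i₀) y
  refine ⟨bpt i₀ v r * Pi.mulSingle i₀ z, _, hfinZ, ?_, ?_, ?_, ?_⟩
  · apply closedOver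
    · intro i
      rw [Units.val_zpow_eq_zpow_val, htu i]
      exact zpow_mem (natCast_mem _ _) _
    · exact mem_coordField hyΓ
  · refine ⟨fun i hi => ?_, ?_⟩
    · rw [Pi.mul_apply, bpt_of_ne i₀ v r hi, Pi.mulSingle_eq_of_ne hi, mul_one, ← zpow_natCast,
        ← zpow_mul, mul_comm, zpow_mul, zpow_natCast, hr i]
    · rw [map_mul, chi_mulSingle, chi_bpt, hz]
      have : ∏ j, r j ^ (v j * v i₀ - v i₀ * v j) = 1 :=
        Finset.prod_eq_one fun j _ => by rw [mul_comm, sub_self, zpow_zero]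
      rw [this, one_mul]
  · exact transverse_small i₀ v hi₀ F hF u hu D r hr y hyΓ hyv z hz
  · have hh := height_aux i₀ v hi₀ u r D hDpos hr y y z 1 one_pos (pow_one y) hz
    rw [← hC₁, Nat.cast_one, div_one] at hh
    have hnR : (0 : ℝ) < n := by exact_mod_cast hn
    have hcardR : ((Set.ncard {x : Pt n | (∀ i, i ≠ i₀ → x i ^ D = u i ^ v i₀) ∧
        chi v x = y} : ℕ) : ℝ) ^ (1 / (n : ℝ)) ≤ (k : ℝ) ^ (n - 1) * V := by
      have h1 : ((Set.ncard {x : Pt n | (∀ i, i ≠ i₀ → x i ^ D = u i ^ v i₀) ∧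
          chi v x = y} : ℕ) : ℝ) ≤ ((k : ℝ) ^ (n - 1) * V) ^ n := by
        have h2 : D ^ (n - 1) * V ≤ (k ^ (n - 1) * V) ^ n := by
          rw [mul_pow, hD, ← pow_mul, ← pow_mul, mul_comm n]
          exact Nat.mul_le_mul_left _ (Nat.le_self_pow (by omega) V)
        have h3 := hcard.trans h2
        exact_mod_cast h3
      have h0 : (0 : ℝ) ≤ (k : ℝ) ^ (n - 1) * V := by positivity
      calc _ ≤ (((k : ℝ) ^ (n - 1) * V) ^ n) ^ (1 / (n : ℝ)) :=
            Real.rpow_le_rpow (by positivity) h1 (by positivity)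
        _ = (k : ℝ) ^ (n - 1) * V := by
            rw [one_div]
            exact Real.pow_rpow_inv_natCast h0 (by omega)
    have hhG := hG_nonneg (bpt i₀ v r * Pi.mulSingle i₀ z)
    refine lt_of_le_of_lt (mul_le_mul hcardR hh hhG (by positivity)) ?_
    have e1 : (k : ℝ) ^ (n - 1) * V * (C₁ / (D : ℝ) + ht (y : Qb)) =
        V * C₁ / k + (k : ℝ) ^ (n - 1) * V * ht (y : Qb) := by
      have hDk : (D : ℝ) = (k : ℝ) ^ (n - 1) * k := by
        rw [hD]
        push_cast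
        rw [← pow_succ]
        congr 1
        omega
      rw [hDk]
      field_simp
    rw [e1]
    have h1 : V * C₁ / k < c / 2 := by
      rw [div_lt_iff₀ hkR]
      rw [div_lt_iff₀ hc] at hkgt
      linarith
    have h2 : (k : ℝ) ^ (n - 1) * V * ht (y : Qb) < c / 2 := by
      rw [lt_div_iff₀ (by positivity)] at hyht
      linarith
    linarith

end Pool.Agent.Helper62.RT
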