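import Pool.Agent.Helper62.RT.Neg
import Pool.Agent.Helper62.RE.Base

set_option autoImplicit false

/-!
# Translation to additive groups
-/

namespace Pool.Agent.Helper62.RT

open Pool.Agent.E8helper9.RM
open Pool.Agent.H58P (ht)
open Pool.Agent.H58R (ht_nonneg ht_mul_le ht_one ht_zpow ht_prod_le)
open Pool.Agent.H58B (ht_pow)
open scoped TensorProduct

variable {n : ℕ}

/-- the additive version of `Γ` -/
def addG (Γ : Subgroup (Pt n)) : AddSubgroup (Fin n → Additive Qbˣ) where
  carrier := {x | (fun i => (x i).toMul) ∈ Γ}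
  add_mem' := fun {a b} ha hb => Γ.mul_mem ha hb
  zero_mem' := Γ.one_mem
  neg_mem' := fun {a} ha => Γ.inv_mem ha

lemma mem_addG {Γ : Subgroup (Pt n)} {x : Fin n → Additive Qbˣ} :
    x ∈ addG Γ ↔ (fun i => (x i).toMul) ∈ Γ := Iff.rfl

/-- the additive groups are isomorphic -/
def addE (Γ : Subgroup (Pt n)) : Additive Γ ≃+ addG Γ where
  toFun x := ⟨fun i => Additive.ofMul ((Additive.toMul x : Γ) : Pt n) i, (Additive.toMul x).2⟩
  invFun x := Additive.ofMul ⟨fun i => (x.1 i).toMul, x.2⟩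
  left_inv := fun x => rfl
  right_inv := fun x => rfl
  map_add' := fun x y => rfl

lemma finRk_add {Γ : Subgroup (Pt n)} (h : FinRk (Additive Γ)) : RE.FinRk (addG Γ) := by
  have hfd : FiniteDimensional ℚ (ℚ ⊗[ℤ] Additive Γ) := h
  exact LinearEquiv.finiteDimensional
    (((addE Γ).toIntLinearEquiv).baseChange ℤ ℚ _ _)

lemma rk_add {Γ : Subgroup (Pt n)} : RE.rk (addG Γ) = rk (Additive Γ) :=
  (LinearEquiv.finrank_eq (((addE Γ).toIntLinearEquiv).baseChange ℤ ℚ _ _)).symm

lemma mem_coordGroup_add {Γ : Subgroup (Pt n)} {z : Additive Qbˣ} :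
    z ∈ RE.coordGroup (addG Γ) ↔ z.toMul ∈ coordGroup Γ := by
  constructor
  · intro h
    induction h using AddSubgroup.closure_induction with
    | mem x hx =>
      obtain ⟨g, hg, i, rfl⟩ := hx
      exact coord_mem hg i
    | zero => exact one_mem _
    | add x y _ _ hx hy => exact mul_mem hx hy
    | neg x _ hx => exact inv_mem hx
  · intro h
    have : ∀ y ∈ coordGroup Γ, (Additive.ofMul y) ∈ RE.coordGroup (addG Γ) := by
      intro y hy
      induction hy using Subgroup.closure_induction with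
      | mem x hx =>
        obtain ⟨g, hg, i, rfl⟩ := hx
        exact AddSubgroup.subset_closure ⟨fun i => Additive.ofMul (g i), hg, i, rfl⟩
      | one => exact zero_mem _
      | mul x y _ _ hx hy => exact add_mem hx hy
      | inv x _ hx => exact neg_mem hx
    exact this _ h

/-- `Γ` is finitely generated modulo torsion: there are finitely many elements of `Γ` such that every
element of `Γ` is the product of an element of the group which they generate and of an element of
finite order. -/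
def FinGenModTorsion {A : Type} [CommGroup A] (Γ : Subgroup A) : Prop :=
  ∃ F : Set A, F.Finite ∧ F ⊆ Γ ∧ ∀ x ∈ Γ, ∃ y ∈ Subgroup.closure F, ∃ m : ℕ, 0 < m ∧
    (x * y⁻¹) ^ m = 1

lemma finGen_add {Γ : Subgroup (Pt n)} (h : RE.FGModTorsion (addG Γ)) : FinGenModTorsion Γ := by
  obtain ⟨F, hF, hFΓ, h⟩ := h
  refine ⟨(fun x : Fin n → Additive Qbˣ => fun i => (x i).toMul) '' F, hF.image _, ?_, ?_⟩
  · rintro _ ⟨x, hx, rfl⟩
    exact hFΓ hx
  · intro x hx
    obtain ⟨y, hy, m, hm, hxy⟩ := h (fun i => Additive.ofMul (x i)) hx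
    refine ⟨fun i => (y i).toMul, ?_, m, hm, ?_⟩
    · clear hxy
      induction hy using AddSubgroup.closure_induction with
      | mem z hz => exact Subgroup.subset_closure ⟨z, hz, rfl⟩
      | zero => exact one_mem _
      | add z w _ _ hz hw => exact mul_mem hz hw
      | neg z _ hz => exact inv_mem hz
    · funext i
      have := congrFun hxy i
      simp only [Pi.smul_apply, Pi.sub_apply, Pi.zero_apply] at this
      have h2 := congrArg Additive.toMul this
      rw [toMul_nsmul, toMul_sub, toMul_zero, toMul_ofMul, div_eq_mul_inv] at h2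
      exact h2

/-- nontorsion elements of small height: modules SM, FG -/
theorem exists_small (hSM : RE.S_SM) (hFG : RE.S_FG) {Γ : Subgroup (Pt n)}
    (hfin : FinRk (Additive Γ)) (hng : ¬ FinGenModTorsion Γ) :
    ∀ ε : ℝ, 0 < ε → ∃ y ∈ coordGroup Γ, (∀ m : ℕ, 0 < m → y ^ m ≠ 1) ∧ ht (y : Qb) < ε := by
  obtain ⟨hFG1, hFG2⟩ := hFG (Additive Qbˣ) n (addG Γ)
  have hng' : ¬ RE.FGModTorsion (RE.coordGroup (addG Γ)) := fun h => hng (finGen_add (hFG1 h))
  have hsmall := hSM (Additive Qbˣ) (RE.coordGroup (addG Γ))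
    (fun z => ht ((z.toMul : Qbˣ) : Qb)) 1 one_pos (fun z => ht_nonneg _)
    (fun z w => by
      rw [toMul_add, Units.val_mul]
      have h1 := ht_mul_le ((z.toMul : Qbˣ) : Qb) ((w.toMul : Qbˣ) : Qb)
      have h2 := ht_nonneg ((z.toMul : Qbˣ) : Qb)
      have h3 := ht_nonneg ((w.toMul : Qbˣ) : Qb)
      linarith)
    (fun m z => by
      rw [toMul_zsmul, Units.val_zpow_eq_zpow_val, ht_zpow _ (Units.ne_zero _), pow_one])
    (hFG2 (finRk_add hfin)) hng'
  intro ε hε
  obtain ⟨z, hz, hzm, hzε⟩ := hsmall ε hε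
  refine ⟨z.toMul, mem_coordGroup_add.1 hz, fun m hm h => hzm m hm ?_, hzε⟩
  apply Additive.toMul.injective
  rw [toMul_nsmul, h, toMul_zero]

/-- the algebra: modules RK, SM, FG -/
theorem exists_character (hRK : RE.S_RK) (hSM : RE.S_SM) (hFG : RE.S_FG) {Γ : Subgroup (Pt n)}
    (hfin : FinRk (Additive Γ)) (hrk : rk (Additive Γ) < n) (hng : ¬ FinGenModTorsion Γ) :
    ∃ v : Fin n → ℤ, v ≠ 0 ∧ ∀ ε : ℝ, 0 < ε → ∃ y ∈ coordGroup Γ, ht (y : Qb) < ε ∧
      ∀ m : ℕ, 0 < m → ∀ γ ∈ Γ, chi v γ ≠ y ^ m := by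
  have hsmall := exists_small hSM hFG hfin hng
  obtain ⟨v, hv, h⟩ := hRK (Additive Qbˣ) n (addG Γ) (fun z => ht ((z.toMul : Qbˣ) : Qb))
    (finRk_add hfin) (by rw [rk_add]; exact hrk) (fun ε hε => by
      obtain ⟨y, hy, hym, hyε⟩ := hsmall ε hε
      refine ⟨Additive.ofMul y, mem_coordGroup_add.2 hy, fun m hm h => hym m hm ?_, hyε⟩
      have := congrArg Additive.toMul h
      rwa [toMul_nsmul, toMul_ofMul, toMul_zero] at this)
  refine ⟨v, hv, fun ε hε => ?_⟩
  obtain ⟨z, hz, hzε, hzm⟩ := h ε hε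
  refine ⟨z.toMul, mem_coordGroup_add.1 hz, hzε, fun m hm γ hγ heq => ?_⟩
  apply hzm m hm (fun i => Additive.ofMul (γ i)) hγ
  apply Additive.toMul.injective
  rw [toMul_nsmul, ← heq, chi_apply, toMul_sum]
  rfl

end Pool.Agent.Helper62.RT
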